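import Pool.Agent.Helper61.QL.Goals
import Pool.Agent.Helper61.QT.GoalsH
import Pool.Agent.Helper23.QS.HOL
import Pool.Agent.Helper50.QS.COM

/-!
# Project QL (MP_0ebdb3_gt), packet HOG: the output of the ODE part
-/

set_option autoImplicit false

open Set
open Pool.Agent.Helper61
open Pool.Agent.Helper61.QS (V En tr rk R4 IsTrans G_OD1 G_OD2 G_OD3 G_OD4)
open Pool.Agent.Helper61.QT (G_OD5)
open Pool.Agent.Helper61.QL
open Pool.Agent.Helper23.QS (uniq intertw derR derT)
open Pool.Agent.Helper50.QS (der1 der2)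

namespace Pool.Agent.Helper82.QL

/-- The two transports commute (port of `QS.G_COM`). -/
theorem com (hOD2 : G_OD2) (hOD4 : G_OD4) (G : ℝ → ℝ) (n : ℕ) (ε b c R T : R4 → En n)
    (hD : DatL G ε b c) (hT : IsTrans b c R T) :
    ∀ r θ α β, T (r, θ, α, β) * R (r, 0, α, β) * ε (0, 0, α, β) =
      R (r, θ, α, β) * T (0, θ, α, β) * ε (0, 0, α, β) := by
  -- intertwining of `R` and `T` with `ε`
  have iR : ∀ r θ α β, ε (r, θ, α, β) * R (r, θ, α, β) = R (r, θ, α, β) * ε (0, θ, α, β) := by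
    intro r θ α β
    have h := (hOD2 n (fun t => b (t, θ, α, β)) (fun t => R (t, θ, α, β))
      (fun t => hD.skb _) (hT.R0 θ α β) (fun t => hT.dR t θ α β)).2
      (fun t => ε (t, θ, α, β) * R (t, θ, α, β)) ?_ r
    · simp only [hT.R0, mul_one] at h
      exact h
    · intro t
      have h1 := (der1 ε hD.smε t θ α β).mul (hT.dR t θ α β)
      refine h1.congr_deriv ?_
      rw [hD.dr]
      noncomm_ring
  have iT : ∀ r θ α β, ε (r, θ, α, β) * T (r, θ, α, β) = T (r, θ, α, β) * ε (r, 0, α, β) := by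
    intro r θ α β
    have h := (hOD2 n (fun t => c (r, t, α, β)) (fun t => T (r, t, α, β))
      (fun t => hD.skc _) (hT.T0 r α β) (fun t => hT.dT r t α β)).2
      (fun t => ε (r, t, α, β) * T (r, t, α, β)) ?_ θ
    · simp only [hT.T0, mul_one] at h
      exact h
    · intro t
      have h1 := (der2 ε hD.smε r t α β).mul (hT.dT r t α β)
      refine h1.congr_deriv ?_
      rw [hD.dt]
      noncomm_ring
  intro r₀ θ₀ α β
  -- the derivative of `T` in `r`
  obtain ⟨c', hc'⟩ : ∃ c' : ℝ × ℝ → En n, c' = fun z => c (z.1, z.2, α, β) := ⟨_, rfl⟩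
  have hc's : ContDiff ℝ 1 c' := by
    rw [hc']
    exact hD.smc.comp (contDiff_fst.prodMk (contDiff_snd.prodMk contDiff_const))
  obtain ⟨D, hD1, hD0, hD2⟩ := hOD4 n c' hc's (fun z => by rw [hc']; exact hD.skc _)
    (fun l t => T (l, t, α, β)) (fun l => hT.T0 l α β) (fun l t => by
      rw [hc']
      exact hT.dT l t α β)
  have hfd : ∀ l t, fderiv ℝ c' (l, t) (1, 0) = fderiv ℝ c (l, t, α, β) (1, 0, 0, 0) := by
    intro l t
    have h1 : HasDerivAt (fun s => c' (s, t)) (fderiv ℝ c' (l, t) (1, 0)) l := by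
      have k1 : HasFDerivAt c' (fderiv ℝ c' (l, t)) (l, t) :=
        (hc's.differentiable one_ne_zero (l, t)).hasFDerivAt
      have k2 : HasDerivAt (fun s : ℝ => ((s, t) : ℝ × ℝ)) (1, 0) l :=
        (hasDerivAt_id l).prodMk (hasDerivAt_const l t)
      exact k1.comp_hasDerivAt l k2
    have h2 := der1 c hD.smc l t α β
    have h3 : (fun s => c' (s, t)) = fun s => c (s, t, α, β) := by rw [hc']
    rw [h3] at h1
    exact h1.unique h2
  obtain ⟨e0, he0⟩ : ∃ e0, e0 = ε (0, 0, α, β) := ⟨_, rfl⟩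
  -- `Y = (∂_r L - b L) ε₀ = 0`
  have hY : ∀ r θ, (D r θ * R (r, 0, α, β) + T (r, θ, α, β) * (b (r, 0, α, β) * R (r, 0, α, β)) -
      b (r, θ, α, β) * (T (r, θ, α, β) * R (r, 0, α, β))) * e0 = 0 := by
    intro r θ
    have h := (hOD2 n (fun t => c (r, t, α, β)) (fun t => T (r, t, α, β))
      (fun t => hD.skc _) (hT.T0 r α β) (fun t => hT.dT r t α β)).2
      (fun t => (D r t * R (r, 0, α, β) + T (r, t, α, β) * (b (r, 0, α, β) * R (r, 0, α, β)) -
        b (r, t, α, β) * (T (r, t, α, β) * R (r, 0, α, β))) * e0) ?_ θ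
    · rw [h]
      have h0 : (D r 0 * R (r, 0, α, β) + T (r, 0, α, β) * (b (r, 0, α, β) * R (r, 0, α, β)) -
        b (r, 0, α, β) * (T (r, 0, α, β) * R (r, 0, α, β))) = 0 := by
        rw [hD0, hT.T0]
        noncomm_ring
      show T (r, θ, α, β) * (_ * e0) = 0
      rw [h0, zero_mul, mul_zero]
    · intro t
      have k1 := (hD2 r t).mul_const (R (r, 0, α, β))
      have k2 := (hT.dT r t α β).mul_const (b (r, 0, α, β) * R (r, 0, α, β))
      have k3 := (der2 b hD.smb r t α β).mul ((hT.dT r t α β).mul_const (R (r, 0, α, β)))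
      have k4 := ((k1.add k2).sub k3).mul_const e0
      refine k4.congr_deriv ?_
      rw [hfd]
      have e1 : c' (r, t) = c (r, t, α, β) := by rw [hc']
      rw [e1]
      have hfl := hD.flat (r, t, α, β)
      have hL : T (r, t, α, β) * R (r, 0, α, β) * e0 =
          ε (r, t, α, β) * (T (r, t, α, β) * R (r, 0, α, β)) := by
        rw [he0, mul_assoc, ← iR r 0 α β, ← mul_assoc, ← iT r t α β, mul_assoc]
      have e2 : (fderiv ℝ c (r, t, α, β) (1, 0, 0, 0) - fderiv ℝ b (r, t, α, β) (0, 1, 0, 0) -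
          (b (r, t, α, β) * c (r, t, α, β) - c (r, t, α, β) * b (r, t, α, β))) *
          (T (r, t, α, β) * R (r, 0, α, β) * e0) = 0 := by
        rw [hL, ← mul_assoc, hfl, zero_mul]
      have e3 := e2
      simp only [Prod.mk_zero_zero] at e3
      rw [← sub_eq_zero, ← e2]
      noncomm_ring
  -- the `r`-derivative of `L ε₀`
  have hfin := (hOD2 n (fun t => b (t, θ₀, α, β)) (fun t => R (t, θ₀, α, β))
      (fun t => hD.skb _) (hT.R0 θ₀ α β) (fun t => hT.dR t θ₀ α β)).2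
      (fun t => T (t, θ₀, α, β) * R (t, 0, α, β) * e0) ?_ r₀
  · simp only [hT.R0, mul_one] at hfin
    rw [he0] at hfin
    rw [hfin, mul_assoc]
  · intro t
    have k := ((hD1 t θ₀).mul (hT.dR t 0 α β)).mul_const e0
    refine k.congr_deriv ?_
    have h := hY t θ₀
    rw [sub_mul, sub_eq_zero] at h
    rw [h]
    noncomm_ring

/-- The packet `HOG`. -/
theorem goalHOG (h1 : G_OD1) (h2 : G_OD2) (h3 : G_OD3) (h4 : G_OD4) (h5 : G_OD5) : G_HOG := by
  intro G n ε p q D
  have cb : Continuous p := D.smb.continuous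
  have cc : Continuous q := D.smc.continuous
  have exR : ∀ z : ℝ × ℝ × ℝ, ∃ U : ℝ → En n, U 0 = 1 ∧
      ∀ t, HasDerivAt U (p (t, z) * U t) t := fun z =>
    h1 n (fun t => p (t, z)) (cb.comp (by fun_prop))
  have exT : ∀ z : ℝ × ℝ × ℝ, ∃ U : ℝ → En n, U 0 = 1 ∧
      ∀ t, HasDerivAt U (q (z.1, t, z.2) * U t) t := fun z =>
    h1 n (fun t => q (z.1, t, z.2)) (cc.comp (by fun_prop))
  choose UR hUR0 hURd using exR
  choose UT hUT0 hUTd using exT
  have keyR : ∀ z z' : ℝ × ℝ × ℝ, (∀ t, p (t, z) = p (t, z')) → ∀ t, UR z t = UR z' t := by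
    intro z z' h t
    refine uniq h2 (cc := fun t => p (t, z')) (fun t => D.skb _) (hUR0 z') (hUR0 z) (hURd z')
      (fun t => ?_) t
    have h5 := hURd z t
    rw [h t] at h5
    exact h5
  have keyT : ∀ z z' : ℝ × ℝ × ℝ, (∀ t, q (z.1, t, z.2) = q (z'.1, t, z'.2)) →
      ∀ t, UT z t = UT z' t := by
    intro z z' h t
    refine uniq h2 (cc := fun t => q (z'.1, t, z'.2)) (fun t => D.skc _) (hUT0 z') (hUT0 z)
      (hUTd z') (fun t => ?_) t
    have h5 := hUTd z t
    rw [h t] at h5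
    exact h5
  have contR : Continuous fun z : (ℝ × ℝ × ℝ) × ℝ => UR z.1 z.2 :=
    h3 (ℝ × ℝ × ℝ) n (fun z => p (z.2, z.1)) (cb.comp (by fun_prop)) (fun z => D.skb _) UR hUR0
      (fun l t => hURd l t)
  have contT : Continuous fun z : (ℝ × ℝ × ℝ) × ℝ => UT z.1 z.2 :=
    h3 (ℝ × ℝ × ℝ) n (fun z => q (z.1.1, z.2, z.1.2)) (cc.comp (by fun_prop))
      (fun z => D.skc _) UT hUT0 (fun l t => hUTd l t)
  have tr : IsTrans p q (fun x => UR x.2 x.1) (fun x => UT (x.1, x.2.2) x.2.1) :=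
    { R0 := fun θ α β => hUR0 _
      T0 := fun r α β => hUT0 _
      dR := fun r θ α β => hURd (θ, α, β) r
      dT := fun r θ α β => hUTd (r, α, β) θ }
  refine ⟨fun x => UR x.2 x.1, fun x => UT (x.1, x.2.2) x.2.1, ?_⟩
  refine
    { cε := D.smε.continuous
      cR := contR.comp (g := fun z : (ℝ × ℝ × ℝ) × ℝ => UR z.1 z.2)
        (f := fun x : R4 => (x.2, x.1)) (by fun_prop)
      cT := contT.comp (g := fun z : (ℝ × ℝ × ℝ) × ℝ => UT z.1 z.2)
        (f := fun x : R4 => ((x.1, x.2.2), x.2.1)) (by fun_prop)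
      idem := D.idem
      symm := D.symm
      uR := fun x => (h2 n (fun t => p (t, x.2)) (UR x.2) (fun t => D.skb _) (hUR0 _)
        (hURd x.2)).1 x.1
      uT := fun x => (h2 n (fun t => q (x.1, t, x.2.2)) (UT (x.1, x.2.2)) (fun t => D.skc _)
        (hUT0 _) (hUTd (x.1, x.2.2))).1 x.2.1
      R0 := tr.R0
      T0 := tr.T0
      iR := ?_
      iT := ?_
      perα := ?_
      perβ := ?_
      r0 := ?_
      r1 := ?_
      t0 := ?_
      t1 := ?_
      smN := ?_
      smS := ?_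
      smΨ := ?_
      comm := ?_ }
  · intro r s α β
    refine intertw h2 (cc := fun t => p (t, s, α, β)) (U := UR (s, α, β))
      (e := fun t => ε (t, s, α, β)) (fun t => D.skb _) (hUR0 _) (hURd _) (fun t => ?_) r
    have h5 := derR D.smε (s, α, β) t
    rw [D.dr] at h5
    exact h5
  · intro r s α β
    refine intertw h2 (cc := fun t => q (r, t, α, β)) (U := UT (r, α, β))
      (e := fun t => ε (r, t, α, β)) (fun t => D.skc _) (hUT0 _) (hUTd _) (fun t => ?_) s
    have h5 := derT D.smε r (α, β) t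
    rw [D.dt] at h5
    exact h5
  · intro r s α β
    exact ⟨(D.perα r s α β).1, keyR (s, α + 2 * Real.pi, β) (s, α, β)
      (fun t => (D.perα t s α β).2.1) r, keyT (r, α + 2 * Real.pi, β) (r, α, β)
      (fun t => (D.perα r t α β).2.2) s⟩
  · intro r s α β
    exact ⟨(D.perβ r s α β).1, keyR (s, α, β + 2 * Real.pi) (s, α, β)
      (fun t => (D.perβ t s α β).2.1) r, keyT (r, α, β + 2 * Real.pi) (r, α, β)
      (fun t => (D.perβ r t α β).2.2) s⟩
  · intro s α β
    exact ⟨(D.r0 s α β).1, keyT (0, α, β) (0, 0, β) (fun t => (D.r0 t α β).2) s⟩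
  · intro s α β
    exact ⟨(D.r1 s α β).1, keyT (Real.pi / 2, α, β) (Real.pi / 2, 0, β - G α)
      (fun t => (D.r1 t α β).2) s⟩
  · intro r α β
    exact ⟨(D.t0 r α β).1, keyR (0, α, β) (0, α, 0) (fun t => (D.t0 t α β).2) r⟩
  · intro r α β
    exact ⟨(D.t1 r α β).1, keyR (Real.pi, α, β) (Real.pi, α, 0)
      (fun t => (D.t1 t α β).2) r⟩
  · exact h5 n (fun z => p (z.2, 0, z.1, 0)) (D.smb.comp (by fun_prop)) (fun z => D.skb _)
      (fun l => UR (0, l, 0)) (fun l => hUR0 _) (fun l t => hURd (0, l, 0) t) (Real.pi / 2)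
  · exact h5 n (fun z => p (z.2, Real.pi, z.1, 0)) (D.smb.comp (by fun_prop))
      (fun z => D.skb _) (fun l => UR (Real.pi, l, 0)) (fun l => hUR0 _)
      (fun l t => hURd (Real.pi, l, 0) t) (Real.pi / 2)
  · exact h5 n (fun z => q (0, z.2, 0, z.1)) (D.smc.comp (by fun_prop)) (fun z => D.skc _)
      (fun l => UT (0, 0, l)) (fun l => hUT0 _) (fun l t => hUTd (0, 0, l) t) Real.pi
  · intro r s α β
    have h6 := com h2 h4 G n ε p q _ _ D tr r s α β
    have h7 : ε (0, 0, α, β) = ε (0, 0, 0, 0) :=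
      ((D.r0 0 α β).1).trans ((D.t0 0 0 β).1)
    rw [h7] at h6
    exact h6

end Pool.Agent.Helper82.QL
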